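import Pool.Agent.H4.FV.OddT

set_option autoImplicit false
set_option linter.unusedVariables false
set_option linter.unusedSectionVars false

/-! ODD-BRIDGE: the dictionary between the group and its algebra (helper113, project FV of helper4). -/

namespace Pool.Agent.H113.FV

open Pool.Agent.N649.SG.Light (pw)
open Pool.Agent.R620.GG
open Pool.Agent.H4.VG (Cen)
open Pool.Agent.H4.FV.Odd
open scoped commutatorElement

/-! ### the group -/

section gr

variable {α : Type} [Group α] (p : ℕ)

theorem pw_eq (x : α) (n : ℕ) : pw (fun x y : α => x * y) x n = x ^ (n + 1) := by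
  induction n with
  | zero => rw [zero_add, pow_one]; rfl
  | succ n ih =>
    show pw (fun x y : α => x * y) x n * x = x ^ (n + 1 + 1)
    rw [ih, ← pow_succ]

variable {p}

theorem iv_eq (hp : 2 ≤ p) (hpow : ∀ x : α, x ^ p = 1) (x : α) : iv p (fun x y : α => x * y) x = x⁻¹ := by
  unfold iv
  rw [pw_eq]
  have h1 : x ^ (p - 2 + 1) * x = 1 := by
    rw [← pow_succ]
    have : p - 2 + 1 + 1 = p := by omega
    rw [this, hpow]
  exact eq_inv_of_mul_eq_one_left h1

theorem cm_eq (hp : 2 ≤ p) (hpow : ∀ x : α, x ^ p = 1) (x y : α) :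
    cm p (fun x y : α => x * y) x y = ⁅x, y⁆ := by
  unfold cm
  rw [iv_eq hp hpow, iv_eq hp hpow, commutatorElement_def]

theorem idem_iff (e : α) : e * e = e ↔ e = 1 := mul_eq_left

end gr

theorem grp : S_grp := by
  intro p hpr hp α μ h
  obtain ⟨e, he, hinv⟩ := h.unit
  choose iv' hiv using hinv
  let _ : Mul α := ⟨μ⟩
  let _ : One α := ⟨e⟩
  let _ : Inv α := ⟨iv'⟩
  let g : Group α := Group.ofLeftAxioms h.assoc he hiv
  have hp2 : 2 ≤ p := hpr.out.two_le
  have hpow : ∀ x : α, x ^ p = 1 := by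
    intro x
    have h1 := h.expo e x (he e)
    have h2 : pw μ x (p - 1) = x ^ (p - 1 + 1) := pw_eq x (p - 1)
    have h3 : p - 1 + 1 = p := by omega
    rw [h2, h3] at h1
    exact h1
  refine ⟨g, fun x y => rfl, hpr.out.odd_of_ne_two hp, ?_, hpow⟩
  intro x y z
  have h1 : z * cm p μ x y = cm p μ x y * z := h.cls x y z
  have h2 : cm p μ x y = ⁅x, y⁆ := cm_eq hp2 hpow x y
  rw [h2] at h1
  exact commutatorElement_eq_one_iff_mul_comm.2 h1.symm

/-! ### the dictionary -/

section dic

variable {p : ℕ} [hpr : Fact p.Prime] {α : Type} [Group α] (h : Cl2 p α)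

include hpr h

theorem cmE (x y : α) : cm p (fun x y : α => x * y) x y = ⁅x, y⁆ := cm_eq hpr.out.two_le h.pow x y

theorem cmA (x y : LG p α h) : @Eq (LG p α h) (cm p (fun x y : α => x * y) x y) (x * y) := cmE h x y

theorem adA (x y : LG p α h) : @Eq (LG p α h) (ad p (fun x y : α => x * y) x y) (x + y) := by
  show ad p (fun x y : α => x * y) x y = bad (G := α) p x y
  generalize (show α from x) = a
  generalize (show α from y) = b
  unfold ad bad
  rw [pw_eq, cmE h]
  have h1 : 1 ≤ hf p := by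
    have := hpr.out.two_le
    unfold hf
    omega
  rw [Nat.sub_add_cancel h1]

theorem smA (c : ZMod p) (x : LG p α h) : @Eq (LG p α h) (sm p (fun x y : α => x * y) c x) (c • x) := by
  have : NeZero p := ⟨hpr.out.ne_zero⟩
  rw [smul_LG h c x]
  show sm p (fun x y : α => x * y) c (show α from x) = (show α from x) ^ c.val
  generalize (show α from x) = a
  unfold sm
  rw [pw_eq]
  have h2 : c.val + p - 1 + 1 = c.val + p := by
    have := hpr.out.two_le
    omega
  rw [h2, pow_add, h.pow, mul_one]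

theorem cenA (z : LG p α h) : Cen (fun x y : α => x * y) z ↔ Ct (A := LG p α h) z := by
  constructor
  · intro h1 x
    exact (commutatorElement_eq_one_iff_mul_comm (G := α)).2 (h1 x).symm
  · intro h1 x
    exact ((commutatorElement_eq_one_iff_mul_comm (G := α)).1 (h1 x)).symm

theorem comA (v y : LG p α h) : (fun x y : α => x * y) v y = (fun x y : α => x * y) y v ↔ v * y = 0 :=
  (commutatorElement_eq_one_iff_mul_comm (G := α)).symm

theorem sumsA (l : List (LG p α h)) : @Eq (LG p α h) (sums p (fun x y : α => x * y) (1 : α) l) l.sum := by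
  induction l with
  | nil => rfl
  | cons a l ih =>
    rw [List.sum_cons, ← ih]
    exact adA h a _

theorem lcE {ι : Type} [Fintype ι] (u : ι → LG p α h) (c : ι → ZMod p) :
    @Eq (LG p α h) (lc p (fun x y : α => x * y) (1 : α) u c) (lcA p u c) := by
  unfold lc lcA
  refine (sumsA h _).trans ?_
  have h1 : (Finset.univ : Finset ι).toList.map (fun i => (sm p (fun x y : α => x * y) (c i) (u i) : LG p α h)) =
      (Finset.univ : Finset ι).toList.map (fun i => c i • u i) :=
    List.map_congr_left fun i _ => smA h (c i) (u i)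
  refine (congrArg List.sum h1).trans ?_
  exact Finset.sum_map_toList (Finset.univ : Finset ι) (fun i => c i • u i)

theorem blE {ι : Type} [Fintype ι] (u : ι → LG p α h) (C : ι → ι → ZMod p) :
    @Eq (LG p α h) (bl p (fun x y : α => x * y) (1 : α) u C) (blA p u C) := by
  unfold bl blA
  refine (sumsA h _).trans ?_
  have h1 : (Finset.univ : Finset (ι × ι)).toList.map (fun q => (sm p (fun x y : α => x * y) (C q.1 q.2)
      (cm p (fun x y : α => x * y) (u q.1) (u q.2)) : LG p α h)) =
      (Finset.univ : Finset (ι × ι)).toList.map (fun q => C q.1 q.2 • (u q.1 * u q.2)) :=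
    List.map_congr_left fun q _ => smA h (C q.1 q.2) (u q.1 * u q.2) ▸ by
      show sm p (fun x y : α => x * y) (C q.1 q.2) (cm p (fun x y : α => x * y) (u q.1) (u q.2)) = _
      rw [cmE h]
      rfl
  refine (congrArg List.sum h1).trans ?_
  refine (Finset.sum_map_toList (Finset.univ : Finset (ι × ι)) (fun q => C q.1 q.2 • (u q.1 * u q.2))).trans ?_
  exact Fintype.sum_prod_type _

theorem indE {ι : Type} [Fintype ι] (u : ι → LG p α h) :
    Ind p (fun x y : α => x * y) u ↔ IndA p u := by
  have key : ∀ c : ι → ZMod p, Cen (fun x y : α => x * y) (lc p (fun x y : α => x * y) (1 : α) u c) ↔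
      Ct (A := LG p α h) (lcA p u c) := fun c =>
    (cenA h (lc p (fun x y : α => x * y) (1 : α) u c)).trans (by rw [lcE h u c])
  constructor
  · intro h1 c hc h2
    exact h1 (1 : α) (mul_one 1) c hc ((key c).2 h2)
  · intro h1 e he c hc h2
    obtain rfl : e = 1 := mul_eq_left.1 he
    exact h1 c hc ((key c).1 h2)

theorem insE {ι : Type} [Fintype ι] (u : ι → LG p α h) (x : LG p α h) :
    InS p (fun x y : α => x * y) u x ↔ InSA p u x := by
  have key : ∀ c : ι → ZMod p, Cen (fun x y : α => x * y)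
      (ad p (fun x y : α => x * y) x (lc p (fun x y : α => x * y) (1 : α) u c)) ↔
      Ct (A := LG p α h) (x + lcA p u c) := fun c =>
    (cenA h (ad p (fun x y : α => x * y) x (lc p (fun x y : α => x * y) (1 : α) u c))).trans (by
      rw [adA h x (lc p (fun x y : α => x * y) (1 : α) u c), lcE h u c])
  constructor
  · rintro ⟨e, he, c, hc⟩
    obtain rfl : e = 1 := mul_eq_left.1 he
    exact ⟨c, (key c).1 hc⟩
  · rintro ⟨c, hc⟩
    exact ⟨(1 : α), mul_one 1, c, (key c).2 hc⟩

theorem triE (v y z : LG p α h) : Tri p (fun x y : α => x * y) v y z ↔ TriA p v y z :=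
  and_congr (comA h v y) (and_congr (comA h v z) (indE h ![v, y, z]))

theorem vtE (v : LG p α h) : Vt p (fun x y : α => x * y) v ↔ VtA p v :=
  exists_congr fun y => exists_congr fun z => triE h v y z

theorem evE (v w : LG p α h) : Ev p (fun x y : α => x * y) v w ↔ EvA p v w :=
  insE h (fun _ : Fin 1 => v) w

theorem qdE (v w a b : LG p α h) : Qd p (fun x y : α => x * y) v w a b ↔ QdA p v w a b := by
  refine and_congr (vtE h v) (and_congr (vtE h w) (and_congr (indE h ![v, w, a, b]) ?_))
  have h1 : @Eq (LG p α h) (v * w + a * b) ((fun x y : α => x * y) (cm p (fun x y : α => x * y) v w)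
      (cm p (fun x y : α => x * y) a b)) := by
    show bad (G := α) p (v * w) (a * b) = _
    rw [cmE h, cmE h]
    show bad (G := α) p ⁅(show α from v), (show α from w)⁆ ⁅(show α from a), (show α from b)⁆ =
      ⁅(show α from v), (show α from w)⁆ * ⁅(show α from a), (show α from b)⁆
    unfold bad
    rw [h.comm, one_pow, mul_one]
  constructor
  · intro h2
    exact h1.trans (h2 (1 : α) (mul_one 1))
  · intro h2 e he
    obtain rfl : e = 1 := mul_eq_left.1 he
    exact h1.symm.trans h2

theorem ajE (v w : LG p α h) : Aj p (fun x y : α => x * y) v w ↔ AjA p v w :=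
  exists_congr fun a => exists_congr fun b => qdE h v w a b

theorem cfgE {n m : ℕ} (s t : Fin m → Fin n) (v y z : Fin n → LG p α h) (a b : Fin m → LG p α h) :
    Cfg p (fun x y : α => x * y) s t v y z a b ↔ CfgA p s t v y z a b :=
  ⟨fun h1 => ⟨fun i => (triE h _ _ _).1 (h1.tri i), fun i j hij h2 => h1.ne i j hij ((evE h _ _).2 h2),
      fun k => (qdE h _ _ _ _).1 (h1.qd k)⟩,
    fun h1 => ⟨fun i => (triE h _ _ _).2 (h1.tri i), fun i j hij h2 => h1.ne i j hij ((evE h _ _).1 h2),
      fun k => (qdE h _ _ _ _).2 (h1.qd k)⟩⟩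

theorem blZ {ι : Type} [Fintype ι] (u : ι → LG p α h) (C : ι → ι → ZMod p) :
    bl p (fun x y : α => x * y) (1 : α) u C = (1 : α) ↔ blA p u C = 0 :=
  ⟨fun h1 => (blE h u C).symm.trans h1, fun h1 => (blE h u C).trans h1⟩

theorem faE : FA p (fun x y : α => x * y) ↔ FAA p (LG p α h) := by
  constructor
  · intro H
    refine ⟨?_, ?_, ?_, ?_, ?_, ?_⟩
    · intro v y z x h1 h2
      exact (insE h ![v, y, z] x).1 (H.cen v y z x ((triE h v y z).2 h1) ((comA h v x).2 h2))
    · intro v w a b a' b' h1 h2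
      obtain ⟨h3, h4⟩ := H.wit v w a b a' b' ((qdE h _ _ _ _).2 h1) ((qdE h _ _ _ _).2 h2)
      exact ⟨(insE h ![a, b] a').1 h3, (insE h ![a, b] b').1 h4⟩
    · intro n m s t hs v y z a b h1
      exact (indE h (cf v y z a b)).1 (H.ind n m s t hs v y z a b ((cfgE h s t v y z a b).2 h1))
    · intro n m s t hs C h1 h2 h3 v y z a b h4 h5
      exact H.rel n m s t hs C h1 h2 h3 v y z a b (1 : α) (mul_one 1) ((cfgE h s t v y z a b).2 h4)
        ((blZ h (cf v y z a b) C).2 h5)
    · intro r C h1 h2 u h3 h4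
      obtain ⟨n, m, v, y, z, v', w', a, b, h5, h6, h7⟩ := H.fin r C h1 h2 u (1 : α) (mul_one 1)
        ((indE h u).2 h3) ((blZ h u C).2 h4)
      exact ⟨n, m, v, y, z, v', w', a, b, fun i => (triE h _ _ _).1 (h5 i), fun k => (qdE h _ _ _ _).1 (h6 k),
        fun i => (insE h (cf' v y z v' w' a b) (u i)).1 (h7 i)⟩
    · intro n
      obtain ⟨v, h1, h2⟩ := H.inf n
      exact ⟨v, fun i => (vtE h _).1 (h1 i), fun i j hij h3 => h2 i j hij ((evE h _ _).2 h3)⟩
  · intro H
    refine ⟨fun x y z => mul_assoc x y z, ⟨(1 : α), one_mul, fun x => ⟨x⁻¹, inv_mul_cancel x⟩⟩, ?_, ?_, ?_, ?_,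
      ?_, ?_, ?_, ?_⟩
    · intro e x he
      obtain rfl : e = 1 := mul_eq_left.1 he
      rw [pw_eq]
      have h1 : p - 1 + 1 = p := by
        have := hpr.out.two_le
        omega
      rw [h1, h.pow]
    · intro x y z
      show z * cm p (fun x y : α => x * y) x y = cm p (fun x y : α => x * y) x y * z
      rw [cmE h]
      exact (commutatorElement_eq_one_iff_mul_comm.1 (h.comm x y z)).symm
    · intro v y z x h1 h2
      exact (insE h ![v, y, z] x).2 (H.cen v y z x ((triE h v y z).1 h1) ((comA h v x).1 h2))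
    · intro v w a b a' b' h1 h2
      obtain ⟨h3, h4⟩ := H.wit v w a b a' b' ((qdE h _ _ _ _).1 h1) ((qdE h _ _ _ _).1 h2)
      exact ⟨(insE h ![a, b] a').2 h3, (insE h ![a, b] b').2 h4⟩
    · intro n m s t hs v y z a b h1
      exact (indE h (cf v y z a b)).2 (H.ind n m s t hs v y z a b ((cfgE h s t v y z a b).1 h1))
    · intro n m s t hs C h1 h2 h3 v y z a b e he h4 h5
      obtain rfl : e = 1 := mul_eq_left.1 he
      exact H.rel n m s t hs C h1 h2 h3 v y z a b ((cfgE h s t v y z a b).1 h4)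
        ((blZ h (cf v y z a b) C).1 h5)
    · intro r C h1 h2 u e he h3 h4
      obtain rfl : e = 1 := mul_eq_left.1 he
      obtain ⟨n, m, v, y, z, v', w', a, b, h5, h6, h7⟩ := H.fin r C h1 h2 u
        ((indE h u).1 h3) ((blZ h u C).1 h4)
      exact ⟨n, m, v, y, z, v', w', a, b, fun i => (triE h _ _ _).2 (h5 i), fun k => (qdE h _ _ _ _).2 (h6 k),
        fun i => (insE h (cf' v y z v' w' a b) (u i)).2 (h7 i)⟩
    · intro n
      obtain ⟨v, h1, h2⟩ := H.inf n
      exact ⟨v, fun i => (vtE h _).2 (h1 i), fun i j hij h3 => h2 i j hij ((evE h _ _).1 h3)⟩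

theorem j1E (n : ℕ) : J1 p (fun x y : α => x * y) n ↔ J1A p (LG p α h) n := by
  have key : ∀ {ι : Type} [Fintype ι] (w : ι → LG p α h) (u : Fin n → LG p α h) (c : Fin n → ZMod p),
      InS p (fun x y : α => x * y) w (lc p (fun x y : α => x * y) (1 : α) u c) ↔
      InSA p w (lcA p u c) := fun w u c =>
    (insE h w (lc p (fun x y : α => x * y) (1 : α) u c)).trans (by rw [lcE h u c])
  constructor
  · rintro ⟨e, he, u, hu⟩
    obtain rfl : e = 1 := mul_eq_left.1 he
    exact ⟨u, fun k m v y z v' w' a b h1 h2 c hc h3 => hu k m v y z v' w' a b (fun i => (triE h _ _ _).2 (h1 i))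
      (fun k => (qdE h _ _ _ _).2 (h2 k)) c hc ((key (cf' v y z v' w' a b) u c).2 h3)⟩
  · rintro ⟨u, hu⟩
    exact ⟨(1 : α), mul_one 1, u, fun k m v y z v' w' a b h1 h2 c hc h3 => hu k m v y z v' w' a b
      (fun i => (triE h _ _ _).1 (h1 i)) (fun k => (qdE h _ _ _ _).1 (h2 k)) c hc
      ((key (cf' v y z v' w' a b) u c).1 h3)⟩

theorem j2E (n : ℕ) : J2 p (fun x y : α => x * y) n ↔ J2A p (LG p α h) n := by
  have key : ∀ {m : ℕ} (x y : Fin m → LG p α h), @Eq (LG p α h) (sums p (fun x y : α => x * y) (1 : α)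
      (List.ofFn fun j => cm p (fun x y : α => x * y) (x j) (y j))) (∑ j, x j * y j) := by
    intro m x y
    refine (sumsA h _).trans ?_
    rw [← List.sum_ofFn]
    refine congrArg List.sum (congrArg List.ofFn ?_)
    funext j
    exact cmA h (x j) (y j)
  constructor
  · rintro ⟨e, he, u, hu, hu2⟩
    obtain rfl : e = 1 := mul_eq_left.1 he
    exact ⟨u, fun i => (cenA h _).1 (hu i), fun c hc m x y h1 => hu2 c hc m x y
      ((lcE h u c).trans (h1.trans (key x y).symm))⟩
  · rintro ⟨u, hu, hu2⟩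
    exact ⟨(1 : α), mul_one 1, u, fun i => (cenA h _).2 (hu i), fun c hc m x y h1 => hu2 c hc m x y
      ((lcE h u c).symm.trans (h1.trans (key x y)))⟩

end dic

theorem bridge : S_bridge := fun p _ _ α _ h =>
  ⟨faE h, fun v => vtE h v, fun v w => evE h v w, fun v w => ajE h v w, fun n => j1E h n, fun n => j2E h n⟩

end Pool.Agent.H113.FV
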